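import Pool.Agent.Helper75.FS.St

set_option autoImplicit false

namespace Pool.Agent.Helper8.FS

open Pool.Agent.Helper75.FS Pool.Agent.Helper26.CovL Module

theorem zmod_two_ne (z : ZMod 2) (hz : z ≠ 0) : z = 1 := by
  revert z
  decide

/-- from a covering code to a family of syndromes with additional zeros -/
theorem syn_of_code {n r c : ℕ} (hC : Code n r c) :
    ∃ (Q : Type) (_ : AddCommGroup Q) (_ : Module (ZMod 2) Q) (_ : Fintype Q)
      (h : Fin n ⊕ Fin r → Q), Fintype.card Q = 2 ^ c ∧ Syn h r := by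
  classical
  obtain ⟨V, hcov, hV⟩ := hC
  have : Fact (Nat.Prime 2) := ⟨Nat.prime_two⟩
  refine ⟨(Fin n → ZMod 2) ⧸ V, inferInstance, inferInstance, inferInstance,
    Sum.elim (fun i => V.mkQ (Pi.single i 1)) (fun _ => 0), ?_, ?_⟩
  · have h1 : Nat.card (Fin n → ZMod 2) = Nat.card V * Nat.card ((Fin n → ZMod 2) ⧸ V) := by
      have := AddSubgroup.card_eq_card_quotient_mul_card_addSubgroup V.toAddSubgroup
      rw [this, mul_comm]
      rfl
    have h2 : Nat.card (Fin n → ZMod 2) = 2 ^ n := by
      rw [Nat.card_eq_fintype_card, Fintype.card_fun, ZMod.card, Fintype.card_fin]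
    rw [h2, ← hV] at h1
    have h3 : 0 < Nat.card V := Nat.card_pos
    rw [← Nat.card_eq_fintype_card]
    exact (Nat.eq_of_mul_eq_mul_left h3 h1).symm
  · intro q
    obtain ⟨x, rfl⟩ := V.mkQ_surjective q
    obtain ⟨v, hv, hvr⟩ := hcov x
    let T1 : Finset (Fin n) := Finset.univ.filter (fun i => (x - v) i ≠ 0)
    have hT1 : T1.card ≤ r := hvr
    have hind : x - v = ind T1 := by
      ext i
      simp only [ind, T1, Finset.mem_filter, Finset.mem_univ, true_and]
      by_cases hz : (x - v) i = 0
      · simp [hz]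
      · rw [if_pos hz]
        exact zmod_two_ne _ hz
    obtain ⟨T2, _, hT2⟩ := Finset.exists_subset_card_eq
      (s := (Finset.univ : Finset (Fin r))) (n := r - T1.card)
      (by rw [Finset.card_univ, Fintype.card_fin]; omega)
    refine ⟨T1.disjSum T2, ?_, ?_⟩
    · rw [Finset.card_disjSum, hT2]; omega
    · rw [Finset.sum_disjSum]
      simp only [Sum.elim_inl, Sum.elim_inr, Finset.sum_const_zero, add_zero]
      rw [← map_sum, ← ind_eq_sum, ← hind, map_sub]
      have : V.mkQ v = 0 := by
        rw [Submodule.mkQ_apply]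
        exact (Submodule.Quotient.mk_eq_zero V).2 hv
      rw [this, sub_zero]

theorem hA6 (hA3 : StA3) : StA6 := by
  intro n r c t hC hnt
  rcases Nat.eq_zero_or_pos t with rfl | ht
  · have h := hA3 n ((n + r) * 2 ^ 0) r c (by simp) hC
    simpa using h
  · obtain ⟨Q, _, _, _, h, hQ, hs⟩ := syn_of_code hC
    have : Fact (Nat.Prime 2) := ⟨Nat.prime_two⟩
    let F := GaloisField 2 t
    have : Finite F := inferInstance
    have : Fintype F := Fintype.ofFinite _
    have hF : Fintype.card F = 2 ^ t := by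
      rw [← Nat.card_eq_fintype_card]
      exact GaloisField.card 2 t (by omega)
    obtain ⟨β⟩ : Nonempty ((Fin n ⊕ Fin r) ↪ F) := by
      apply Function.Embedding.nonempty_of_card_le
      rw [hF, Fintype.card_sum, Fintype.card_fin, Fintype.card_fin]
      exact hnt
    have hs' := hs.blowup β
    obtain ⟨V, hV1, hV2⟩ := hs'.code (c := c + r * t) (by
      rw [Fintype.card_prod, hQ, Fintype.card_fun, hF, Fintype.card_fin, ← pow_mul, ← pow_add,
        mul_comm t r]) ((n + r) * 2 ^ t) (by
      rw [Fintype.card_prod, hF, Fintype.card_sum, Fintype.card_fin, Fintype.card_fin])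
    refine ⟨V, hV1, ?_⟩
    exact_mod_cast hV2

end Pool.Agent.Helper8.FS
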